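import Pool.Agent.H66.L.S8.H728R2.FA.Defs

set_option autoImplicit false

/-! # Dynamics of `φ ∘ f` when `f` does not decrease `h` and `φ` increases `h` off `C` -/

open Set Filter Topology MeasureTheory

namespace Pool.Agent.Y318.MH

open Pool.Agent.H728R2.OS Pool.Agent.H728R2.FA

section

variable {X : Type*} [MetricSpace X] [CompactSpace X]

/-- the hypotheses on `f`, `φ`, `h`, `C` -/
structure Inc (f φ : X ≃ₜ X) (h : X → ℝ) (C : Set X) : Prop where
  cont : Continuous h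
  mono : ∀ x, h x ≤ h (f x)
  le : ∀ x, h x ≤ h (φ x)
  eq : ∀ x, h (φ x) = h x → x ∈ C
  fix : ∀ x ∈ C, φ x = x

/-- the largest `f`-invariant subset of `C` -/
def CI (f : X ≃ₜ X) (C : Set X) : Set X := {x | ∀ n : ℕ, f^[n] x ∈ C ∧ f.symm^[n] x ∈ C}

omit [CompactSpace X] in
theorem Inc.g_mono {f φ : X ≃ₜ X} {h : X → ℝ} {C : Set X} (H : Inc f φ h C) (x : X) :
    h x ≤ h ((f.trans φ) x) := (H.mono x).trans (H.le (f x))

omit [CompactSpace X] in
theorem Inc.g_eq {f φ : X ≃ₜ X} {h : X → ℝ} {C : Set X} (H : Inc f φ h C) {x : X}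
    (hx : h ((f.trans φ) x) = h x) : f x ∈ C ∧ (f.trans φ) x = f x := by
  have h1 : h (φ (f x)) = h (f x) := le_antisymm
    (by
      have : h (φ (f x)) = h x := hx
      rw [this]
      exact H.mono x) (H.le _)
  have h2 := H.eq _ h1
  exact ⟨h2, H.fix _ h2⟩

omit [CompactSpace X] in
/-- invariant sets on which `h ∘ g = h` -/
theorem Inc.sub_CI {f φ : X ≃ₜ X} {h : X → ℝ} {C : Set X} (H : Inc f φ h C) {S : Set X}
    (hS : ∀ x ∈ S, (f.trans φ) x ∈ S) (hS' : ∀ x ∈ S, (f.trans φ).symm x ∈ S)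
    (he : ∀ x ∈ S, h ((f.trans φ) x) = h x) {x : X} (hx : x ∈ S) : x ∈ CI f C := by
  have hf : ∀ x ∈ S, (f.trans φ) x = f x := fun x hx => (H.g_eq (he x hx)).2
  have hfS : ∀ x ∈ S, f x ∈ S := fun x hx => by rw [← hf x hx]; exact hS x hx
  have hfs : ∀ x ∈ S, f.symm x = (f.trans φ).symm x := by
    intro x hx
    rw [f.symm_apply_eq]
    rw [← hf _ (hS' x hx)]
    exact ((f.trans φ).apply_symm_apply x).symm
  have hfsS : ∀ x ∈ S, f.symm x ∈ S := fun x hx => by rw [hfs x hx]; exact hS' x hx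
  have hSC : S ⊆ C := by
    intro y hy
    have h1 := (H.g_eq (he _ (hfsS y hy))).1
    rwa [f.apply_symm_apply] at h1
  intro n
  constructor
  · apply hSC
    induction n with
    | zero => exact hx
    | succ n ih => rw [Function.iterate_succ_apply']; exact hfS _ ih
  · apply hSC
    induction n with
    | zero => exact hx
    | succ n ih => rw [Function.iterate_succ_apply']; exact hfsS _ ih

omit [CompactSpace X] in
theorem omegaLim_map (g : X ≃ₜ X) {p y : X} (hy : y ∈ omegaLim g p) : g y ∈ omegaLim g p := by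
  intro U hU N
  obtain ⟨n, hn, h⟩ := hy (g ⁻¹' U) (g.continuous.continuousAt.preimage_mem_nhds hU) N
  refine ⟨n + 1, by omega, ?_⟩
  rw [Function.iterate_succ_apply']
  exact h

omit [CompactSpace X] in
theorem omegaLim_symm (g : X ≃ₜ X) {p y : X} (hy : y ∈ omegaLim g p) :
    g.symm y ∈ omegaLim g p := by
  intro U hU N
  obtain ⟨n, hn, h⟩ := hy (g.symm ⁻¹' U) (g.symm.continuous.continuousAt.preimage_mem_nhds hU) (N + 1)
  obtain ⟨m, rfl⟩ : ∃ m, n = m + 1 := ⟨n - 1, by omega⟩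
  refine ⟨m, by omega, ?_⟩
  rw [Function.iterate_succ_apply'] at h
  have : g.symm (g (g^[m] p)) ∈ U := h
  rwa [g.symm_apply_apply] at this

theorem exists_omegaLim (g : X ≃ₜ X) (p : X) (K : Set X) (hK : IsClosed K)
    (hp : ∀ N : ℕ, ∃ n, N ≤ n ∧ g^[n] p ∈ K) : ∃ y ∈ K, y ∈ omegaLim g p := by
  choose φ hφ hφK using hp
  obtain ⟨y, hy, ψ, hψ, hlim⟩ := hK.isCompact.tendsto_subseq (x := fun n => g^[φ n] p) hφK
  refine ⟨y, hy, fun U hU N => ?_⟩
  obtain ⟨n, hn, hN⟩ := ((hlim.eventually hU).and (eventually_ge_atTop N)).exists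
  exact ⟨φ (ψ n), (hN.trans (hψ.id_le n)).trans (hφ _), hn⟩

theorem Inc.h_const {f φ : X ≃ₜ X} {h : X → ℝ} {C : Set X} (H : Inc f φ h C) (p : X) :
    ∃ c : ℝ, ∀ y ∈ omegaLim (f.trans φ) p, h y = c := by
  set g := f.trans φ with hg
  have hm : Monotone fun n : ℕ => h (g^[n] p) := by
    refine monotone_nat_of_le_succ fun n => ?_
    rw [Function.iterate_succ_apply']
    exact H.g_mono _
  obtain ⟨B, hB⟩ : ∃ B, ∀ x, h x ≤ B := by
    obtain ⟨B, hB⟩ := (isCompact_range H.cont).bddAbove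
    exact ⟨B, fun x => hB ⟨x, rfl⟩⟩
  have hlim := tendsto_atTop_ciSup hm ⟨B, by rintro _ ⟨n, rfl⟩; exact hB _⟩
  refine ⟨⨆ n : ℕ, h (g^[n] p), fun y hy => ?_⟩
  set c := ⨆ n : ℕ, h (g^[n] p) with hc
  by_contra hne
  have hpos : 0 < |h y - c| := abs_pos.2 (sub_ne_zero.2 hne)
  have hU : {x | |h x - h y| < |h y - c| / 2} ∈ 𝓝 y := by
    have : Tendsto (fun x => |h x - h y|) (𝓝 y) (𝓝 |h y - h y|) :=
      ((H.cont.continuousAt (x := y)).tendsto.sub_const (h y)).abs
    rw [sub_self, abs_zero] at this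
    exact this.eventually (gt_mem_nhds (by positivity))
  obtain ⟨N, hN⟩ := Metric.tendsto_atTop.1 hlim (|h y - c| / 2) (by positivity)
  obtain ⟨n, hn, h1⟩ := hy _ hU N
  have h2 := hN n hn
  rw [Real.dist_eq] at h2
  have h3 : |h y - c| ≤ |h (g^[n] p) - h y| + |h (g^[n] p) - c| := by
    have := abs_sub_le (h y) (h (g^[n] p)) c
    rwa [abs_sub_comm (h y) (h (g^[n] p))] at this
  have h4 : |h (g^[n] p) - h y| < |h y - c| / 2 := h1
  linarith

theorem Inc.omegaLim_sub {f φ : X ≃ₜ X} {h : X → ℝ} {C : Set X} (H : Inc f φ h C) (p : X) :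
    omegaLim (f.trans φ) p ⊆ CI f C := by
  obtain ⟨c, hc⟩ := H.h_const p
  intro y hy
  exact H.sub_CI (S := omegaLim (f.trans φ) p) (fun x hx => omegaLim_map _ hx)
    (fun x hx => omegaLim_symm _ hx)
    (fun x hx => by rw [hc _ (omegaLim_map _ hx), hc x hx]) hy

/-- an `ω`-limit set in a disjoint union of closed invariant sets is in one of them -/
theorem omegaLim_one (g : X ≃ₜ X) {m : ℕ} (M : Fin m → Set X) (hcl : ∀ i, IsClosed (M i))
    (hinv : ∀ i, g '' M i = M i) (hdis : ∀ i j, i ≠ j → Disjoint (M i) (M j)) (p : X)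
    (hp : omegaLim g p ⊆ ⋃ i, M i) : ∃ i, omegaLim g p ⊆ M i := by
  -- disjoint neighbourhoods
  obtain ⟨U, hUo, hMU, hUdis⟩ : ∃ U : Fin m → Set X, (∀ i, IsOpen (U i)) ∧ (∀ i, M i ⊆ U i) ∧
      ∀ i j, i ≠ j → Disjoint (U i) (U j) := by
    have h1 : ∀ i j : Fin m, ∃ A B : Set X, IsOpen A ∧ IsOpen B ∧ M i ⊆ A ∧ M j ⊆ B ∧
        (i ≠ j → Disjoint A B) := by
      intro i j
      by_cases hij : i = j
      · exact ⟨univ, univ, isOpen_univ, isOpen_univ, subset_univ _, subset_univ _, fun h => absurd hij h⟩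
      · obtain ⟨A, B, hA, hB, hMA, hMB, hAB⟩ := NormalSpace.normal (M i) (M j)
          (hcl i) (hcl j) (hdis i j hij)
        exact ⟨A, B, hA, hB, hMA, hMB, fun _ => hAB⟩
    choose A B hA hB hMA hMB hAB using h1
    refine ⟨fun i => ⋂ j, (A i j ∩ B j i), fun i => isOpen_iInter_of_finite fun j =>
      (hA i j).inter (hB j i), fun i => subset_iInter fun j => subset_inter (hMA i j) (hMB j i),
      fun i j hij => ?_⟩
    refine (hAB i j hij).mono ?_ ?_
    · exact (iInter_subset _ j).trans inter_subset_left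
    · exact (iInter_subset _ i).trans inter_subset_right
  let V : Fin m → Set X := fun i => U i ∩ g ⁻¹' U i
  have hVo : ∀ i, IsOpen (V i) := fun i => (hUo i).inter ((hUo i).preimage g.continuous)
  have hMV : ∀ i, M i ⊆ V i := fun i x hx => ⟨hMU i hx, hMU i (by
    rw [← hinv i]; exact mem_image_of_mem _ hx)⟩
  -- the orbit is finally in the union of the `V i`
  have hev : ∃ N : ℕ, ∀ n, N ≤ n → ∃ i, g^[n] p ∈ V i := by
    by_contra hcon
    push Not at hcon
    obtain ⟨y, hyK, hyω⟩ := exists_omegaLim g p (⋃ i, V i)ᶜ (isOpen_iUnion hVo).isClosed_compl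
      (fun N => by
        obtain ⟨n, hn, h⟩ := hcon N
        refine ⟨n, hn, ?_⟩
        rw [mem_compl_iff, mem_iUnion]
        push Not
        exact h)
    obtain ⟨i, hi⟩ := mem_iUnion.1 (hp hyω)
    exact hyK (mem_iUnion.2 ⟨i, hMV i hi⟩)
  obtain ⟨N, hN⟩ := hev
  obtain ⟨i, hi⟩ := hN N le_rfl
  have hst : ∀ k, g^[N + k] p ∈ V i := by
    intro k
    induction k with
    | zero => exact hi
    | succ k ih =>
      obtain ⟨j, hj⟩ := hN (N + (k + 1)) (by omega)
      by_cases hij : i = j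
      · rw [hij]; exact hj
      · exfalso
        have h1 : g^[N + (k + 1)] p ∈ U i := by
          have : g^[N + (k + 1)] p = g (g^[N + k] p) := by
            rw [← Function.iterate_succ_apply' g]
            rfl
          rw [this]
          exact ih.2
        exact Set.disjoint_left.1 (hUdis i j hij) h1 hj.1
  refine ⟨i, fun y hy => ?_⟩
  obtain ⟨j, hj⟩ := mem_iUnion.1 (hp hy)
  by_cases hij : i = j
  · rw [hij]; exact hj
  · exfalso
    obtain ⟨n, hn, h⟩ := hy (U j) ((hUo j).mem_nhds (hMU j hj)) N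
    obtain ⟨k, rfl⟩ := Nat.exists_eq_add_of_le hn
    exact Set.disjoint_left.1 (hUdis i j hij) (hst k).1 h

omit [CompactSpace X] in
/-- finitely many candidates suffice -/
theorem finite_of_cover [MeasurableSpace X] (μ : Measure X) (g : X ≃ₜ X) {m : ℕ}
    (M : Fin m → Set X) (hinv : ∀ i, g '' M i = M i)
    (htr : ∀ i, ∃ x ∈ M i, M i ⊆ closure (range fun n : ℕ => g^[n] x))
    (hcov : ∀ p, ∃ i, omegaLim g p ⊆ M i) : FiniteAttractors μ g := by
  classical
  let I := {i : Fin m // 0 < μ {p | omegaLim g p ⊆ M i}}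
  let e := Fintype.equivFin I
  refine ⟨Fintype.card I, fun a => M (e.symm a).1, fun a => ⟨hinv _, htr _, (e.symm a).2⟩, ?_⟩
  have hsub : {p | ∀ a : Fin (Fintype.card I), ¬ omegaLim g p ⊆ M (e.symm a).1} ⊆
      ⋃ i ∈ {i : Fin m | μ {p | omegaLim g p ⊆ M i} = 0}, {p | omegaLim g p ⊆ M i} := by
    intro p hp
    obtain ⟨i, hi⟩ := hcov p
    refine mem_iUnion₂.2 ⟨i, ?_, hi⟩
    by_contra hne
    have h1 : 0 < μ {p | omegaLim g p ⊆ M i} := pos_iff_ne_zero.2 hne
    refine hp (e ⟨i, h1⟩) ?_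
    rw [e.symm_apply_apply]
    exact hi
  refine measure_mono_null hsub ?_
  rw [measure_biUnion_null_iff (Set.to_countable _)]
  exact fun i hi => hi

/-- **Finitely many attractors.** -/
theorem Inc.finite_attractors [MeasurableSpace X] (μ : Measure X) {f φ : X ≃ₜ X} {h : X → ℝ}
    {C : Set X} (H : Inc f φ h C) {m : ℕ} (M : Fin m → Set X) (hcl : ∀ i, IsClosed (M i))
    (hinv : ∀ i, f '' M i = M i) (hdis : ∀ i j, i ≠ j → Disjoint (M i) (M j))
    (hC : ∀ i, M i ⊆ C)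
    (htr : ∀ i, ∃ x ∈ M i, M i ⊆ closure (range fun n : ℕ => f^[n] x))
    (hcov : CI f C ⊆ ⋃ i, M i) :
    (∀ p, ∃ i, omegaLim (f.trans φ) p ⊆ M i) ∧ FiniteAttractors μ (f.trans φ) := by
  have hgf : ∀ i, ∀ x ∈ M i, (f.trans φ) x = f x := fun i x hx =>
    H.fix _ (hC i (by rw [← hinv i]; exact mem_image_of_mem _ hx))
  have hfM : ∀ i, ∀ x ∈ M i, f x ∈ M i := fun i x hx => by
    rw [← hinv i]; exact mem_image_of_mem _ hx
  have hinvg : ∀ i, (f.trans φ) '' M i = M i := by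
    intro i
    conv_rhs => rw [← hinv i]
    exact image_congr (hgf i)
  have h1 : ∀ p, ∃ i, omegaLim (f.trans φ) p ⊆ M i := fun p =>
    omegaLim_one _ M hcl hinvg hdis p ((H.omegaLim_sub p).trans hcov)
  refine ⟨h1, finite_of_cover μ _ M hinvg (fun i => ?_) h1⟩
  obtain ⟨x, hx, hd⟩ := htr i
  refine ⟨x, hx, ?_⟩
  have : (fun n : ℕ => (f.trans φ)^[n] x) = fun n : ℕ => f^[n] x := by
    funext n
    have key : (f.trans φ)^[n] x = f^[n] x ∧ f^[n] x ∈ M i := by
      induction n with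
      | zero => exact ⟨rfl, hx⟩
      | succ n ih =>
        rw [Function.iterate_succ_apply', Function.iterate_succ_apply', ih.1]
        exact ⟨hgf i _ ih.2, hfM i _ ih.2⟩
    exact key.1
  rw [this]
  exact hd

omit [CompactSpace X] in
theorem omega_map' (g : X ≃ₜ X) {x : X} (hx : x ∈ Omega g) : g x ∈ Omega g := by
  intro U hU
  obtain ⟨n, hn, z, ⟨y, hy, hyz⟩, hz⟩ := hx (g ⁻¹' U) (g.continuous.continuousAt.preimage_mem_nhds hU)
  refine ⟨n, hn, g z, ⟨g y, hy, ?_⟩, hz⟩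
  rw [← hyz, ← Function.iterate_succ_apply g, ← Function.iterate_succ_apply' g]

omit [CompactSpace X] in
theorem omega_symm' (g : X ≃ₜ X) {x : X} (hx : x ∈ Omega g) : g.symm x ∈ Omega g := by
  intro U hU
  obtain ⟨n, hn, z, ⟨y, hy, hyz⟩, hz⟩ := hx (g.symm ⁻¹' U)
    (g.symm.continuous.continuousAt.preimage_mem_nhds hU)
  refine ⟨n, hn, g.symm z, ⟨g.symm y, hy, ?_⟩, hz⟩
  rw [← hyz, g.eq_symm_apply, ← Function.iterate_succ_apply' g, Function.iterate_succ_apply,
    g.apply_symm_apply]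

omit [CompactSpace X] in
theorem Inc.omega_sub {f φ : X ≃ₜ X} {h : X → ℝ} {C : Set X} (H : Inc f φ h C) :
    Omega (f.trans φ) ⊆ CI f C := by
  intro x hx
  refine H.sub_CI (S := Omega (f.trans φ)) (fun x hx => omega_map' _ hx)
    (fun x hx => omega_symm' _ hx) (fun x hx => ?_) hx
  by_contra hne
  have hlt : h x < h ((f.trans φ) x) := lt_of_le_of_ne (H.g_mono x) (Ne.symm hne)
  obtain ⟨c, hc1, hc2⟩ := exists_between hlt
  have hU : {y | h y < c} ∩ {y | c < h ((f.trans φ) y)} ∈ 𝓝 x :=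
    Filter.inter_mem (H.cont.continuousAt.eventually (gt_mem_nhds hc1))
      ((H.cont.comp (f.trans φ).continuous).continuousAt.eventually (lt_mem_nhds hc2))
  obtain ⟨n, hn, z, ⟨y, hy, hyz⟩, hz⟩ := hx _ hU
  obtain ⟨m, rfl⟩ : ∃ m, n = m + 1 := ⟨n - 1, by omega⟩
  have h1 : h ((f.trans φ) y) ≤ h z := by
    rw [← hyz, Function.iterate_succ_apply]
    clear hz hyz hn
    generalize (f.trans φ) y = w
    induction m with
    | zero => exact le_rfl
    | succ m ih =>
      rw [Function.iterate_succ_apply']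
      exact ih.trans (H.g_mono _)
  have h2 : c < h ((f.trans φ) y) := hy.2
  have h3 : h z < c := hz.1
  linarith

omit [CompactSpace X] in
theorem CI_sub (f : X ≃ₜ X) (C : Set X) : CI f C ⊆ C := fun x hx => (hx 0).1

omit [CompactSpace X] in
theorem CI_map (f : X ≃ₜ X) (C : Set X) {x : X} (hx : x ∈ CI f C) : f x ∈ CI f C := by
  intro n
  refine ⟨(hx (n + 1)).1, ?_⟩
  rcases n with _ | n
  · exact (hx 1).1
  · rw [Function.iterate_succ_apply, f.symm_apply_apply]
    exact (hx n).2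

omit [CompactSpace X] in
theorem iter_mem_CI (f : X ≃ₜ X) (C : Set X) {x : X} (hx : x ∈ CI f C) (n : ℕ) :
    f^[n] x ∈ CI f C := by
  induction n with
  | zero => exact hx
  | succ n ih => rw [Function.iterate_succ_apply']; exact CI_map f C ih

omit [CompactSpace X] in
theorem CI_per (f : X ≃ₜ X) {C : Set X} (hC : (CI f C).Finite) : CI f C ⊆ Per f := by
  intro x hx
  have := hC.to_subtype
  obtain ⟨a, b, hab, heq⟩ := Finite.exists_ne_map_eq_of_infinite
    (fun n : ℕ => (⟨f^[n] x, iter_mem_CI f C hx n⟩ : CI f C))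
  have heq' : f^[a] x = f^[b] x := congrArg Subtype.val heq
  rcases lt_or_gt_of_ne hab with h | h
  · obtain ⟨k, rfl⟩ := Nat.exists_eq_add_of_lt h
    refine ⟨k + 1, by omega, ?_⟩
    have : f^[a] (f^[k + 1] x) = f^[a] x := by
      rw [← Function.iterate_add_apply, heq']
      rfl
    exact (f.injective.iterate a) this
  · obtain ⟨k, rfl⟩ := Nat.exists_eq_add_of_lt h
    refine ⟨k + 1, by omega, ?_⟩
    have : f^[b] (f^[k + 1] x) = f^[b] x := by
      rw [← Function.iterate_add_apply, ← heq']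
      rfl
    exact (f.injective.iterate b) this

omit [CompactSpace X] in
theorem per_omega (f : X ≃ₜ X) : Per f ⊆ Omega f := by
  rintro x ⟨n, hn, hx⟩ U hU
  exact ⟨n, hn, x, ⟨x, mem_of_mem_nhds hU, hx⟩, mem_of_mem_nhds hU⟩

omit [CompactSpace X] in
theorem Inc.iter_eq {f φ : X ≃ₜ X} {h : X → ℝ} {C : Set X} (H : Inc f φ h C) {x : X}
    (hx : x ∈ CI f C) (n : ℕ) : (f.trans φ)^[n] x = f^[n] x := by
  induction n with
  | zero => rfl
  | succ n ih =>
    rw [Function.iterate_succ_apply', Function.iterate_succ_apply', ih]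
    exact H.fix _ (CI_sub f C (CI_map f C (iter_mem_CI f C hx n)))

omit [CompactSpace X] in
/-- for finite `C` the nonwandering set of `φ ∘ f` is the invariant part of `C` -/
theorem Inc.omega_eq {f φ : X ≃ₜ X} {h : X → ℝ} {C : Set X} (H : Inc f φ h C)
    (hC : (CI f C).Finite) : Omega (f.trans φ) = CI f C := by
  refine subset_antisymm H.omega_sub fun x hx => ?_
  obtain ⟨n, hn, h1⟩ := CI_per f hC hx
  exact per_omega _ ⟨n, hn, by rw [H.iter_eq hx, h1]⟩

omit [CompactSpace X] in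
theorem omegaLim_omega (g : X ≃ₜ X) (p : X) : omegaLim g p ⊆ Omega g := by
  intro y hy U hU
  obtain ⟨n, -, h1⟩ := hy U hU 0
  obtain ⟨m, hm, h2⟩ := hy U hU (n + 1)
  obtain ⟨k, rfl⟩ := Nat.exists_eq_add_of_le hm
  refine ⟨k + 1, by omega, _, ⟨g^[n] p, h1, rfl⟩, ?_⟩
  rw [← Function.iterate_add_apply]
  have : k + 1 + n = n + 1 + k := by omega
  rw [this]
  exact h2

/-- **Conjugacy on the nonwandering sets.** -/
theorem Inc.omega_of_conj {f φ : X ≃ₜ X} {h : X → ℝ} {C : Set X} (H : Inc f φ h C)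
    (hC : (CI f C).Finite) (hconj : OmegaConj f (f.trans φ)) :
    (Omega f).Finite ∧ Omega f = CI f C ∧ Omega f ⊆ C ∩ Per f ∧ ∀ p, ∃ y ∈ omegaLim f p, y ∈ C := by
  have hg : (Omega (f.trans φ)).Finite := by rw [H.omega_eq hC]; exact hC
  obtain ⟨e, -⟩ := hconj
  have hfin : (Omega f).Finite := by
    have := hg.to_subtype
    exact Set.finite_coe_iff.1 (Finite.of_equiv _ e.toEquiv.symm)
  have hcard : (Omega f).ncard = (CI f C).ncard := by
    rw [← H.omega_eq hC]
    exact Nat.card_congr e.toEquiv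
  have heq : CI f C = Omega f :=
    Set.eq_of_subset_of_ncard_le ((CI_per f hC).trans (per_omega f)) hcard.le hfin
  refine ⟨hfin, heq.symm, ?_, fun p => ?_⟩
  · rw [← heq]
    exact subset_inter (CI_sub f C) (CI_per f hC)
  · obtain ⟨y, -, hy⟩ := exists_omegaLim f p univ isClosed_univ (fun N => ⟨N, le_rfl, trivial⟩)
    refine ⟨y, hy, CI_sub f C ?_⟩
    rw [heq]
    exact omegaLim_omega f p hy

end

end Pool.Agent.Y318.MH
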